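import Mathlib

set_option autoImplicit false

namespace Pool.Agent.Results.MP_673260_co.Two

open Set

/-- finite permutations -/
abbrev P : Type := Σ n : ℕ, Equiv.Perm (Fin n)

/-- `f` picks the positions of an occurrence of the pattern `σ` in `π` -/
def Emb (σ π : P) (f : Fin σ.1 → Fin π.1) : Prop :=
  StrictMono f ∧ ∀ i j, σ.2 i < σ.2 j ↔ π.2 (f i) < π.2 (f j)

/-- a permutation class -/
def IsClass (C : Set P) : Prop :=
  (⟨0, 1⟩ : P) ∈ C ∧ ∀ σ π : P, (∃ f, Emb σ π f) → π ∈ C → σ ∈ C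

/-- the entries of `π` in the positions `s` are order-isomorphic to an element of `A` -/
def On (A : Set P) (π : P) (s : Set (Fin π.1)) : Prop := ∃ α ∈ A, ∃ f, Emb α π f ∧ range f = s

/-- the merge of two sets of permutations -/
def merge (A B : Set P) : Set P := {π | ∃ s, On A π s ∧ On B π sᶜ}

/-- an exact split of `C` -/
def Split (C A B : Set P) : Prop := IsClass A ∧ IsClass B ∧ A ⊂ C ∧ B ⊂ C ∧ C = merge A B

/-- the irreducible exact-splittings of a class -/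
inductive Irr : Set P → Set (Set P) → Prop
  | base (C : Set P) : (¬ ∃ A B, Split C A B) → Irr C {C}
  | step (C A B : Set P) (S T : Set (Set P)) : Split C A B → Irr A S → Irr B T → Irr C (S ∪ T)

theorem exists_pat (π : P) (s : Set (Fin π.1)) : ∃ α f, Emb α π f ∧ range f = s := by
  classical
  let f := s.toFinset.orderEmbOfFin rfl
  let h : Fin s.toFinset.card → Fin π.1 := π.2 ∘ f
  have hi : Function.Injective h := π.2.injective.comp f.injective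
  have hm : StrictMono (h ∘ Tuple.sort h) :=
    (Tuple.monotone_sort h).strictMono_of_injective (hi.comp (Tuple.sort h).injective)
  refine ⟨⟨_, (Tuple.sort h).symm⟩, f, ⟨f.strictMono, fun i j => ?_⟩, by simp [f]⟩
  rw [← hm.lt_iff_lt]
  simp [h]

theorem Emb.comp {α σ π : P} {f e} (h1 : Emb α σ f) (h2 : Emb σ π e) : Emb α π (e ∘ f) :=
  ⟨h2.1.comp h1.1, fun i j => (h1.2 i j).trans (h2.2 _ _)⟩

theorem Emb.le {α β π : P} {f g} (h1 : Emb α π f) (h2 : Emb β π g) (h : range f ⊆ range g) :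
    ∃ e, Emb α β e := by
  choose e he using fun i => h (mem_range_self i)
  refine ⟨e, fun i j hij => h2.1.lt_iff_lt.mp ?_, fun i j => ?_⟩
  · rw [he, he]; exact h1.1 hij
  · rw [h1.2, h2.2, he, he]

theorem emb_id (π : P) : Emb π π id := ⟨strictMono_id, fun _ _ => Iff.rfl⟩

theorem On.pull {A : Set P} (hA : IsClass A) {σ π : P} {e} (he : Emb σ π e) {t} (h : On A π t)
    {s : Set (Fin σ.1)} (hs : ∀ x ∈ s, e x ∈ t) : On A σ s := by
  obtain ⟨α, hα, f, hf, rfl⟩ := h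
  obtain ⟨γ, g, hg, rfl⟩ := exists_pat σ s
  refine ⟨γ, hA.2 _ _ ((hg.comp he).le hf ?_) hα, g, hg, rfl⟩
  rintro _ ⟨i, rfl⟩
  exact hs _ (mem_range_self i)

theorem on_univ {A : Set P} (hA : IsClass A) {π : P} : On A π univ ↔ π ∈ A :=
  ⟨fun ⟨_, hα, _, hf, e⟩ => hA.2 _ _ ((emb_id π).le hf (e ▸ subset_univ _)) hα,
    fun h => ⟨π, h, id, emb_id π, range_id⟩⟩

theorem on_empty {A : Set P} (hA : IsClass A) (π : P) : On A π ∅ :=
  ⟨_, hA.1, Fin.elim0, ⟨fun i => i.elim0, fun i => i.elim0⟩, range_eq_empty _⟩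

theorem cover {A B : Set P} (hB : IsClass B) {π : P} {t u} (h1 : On A π t) (h2 : On B π u)
    (h : ∀ x, x ∈ t ∨ x ∈ u) : π ∈ merge A B :=
  ⟨t, h1, h2.pull hB (emb_id π) fun x hx => (h x).resolve_left hx⟩

theorem on_merge {A B : Set P} (hA : IsClass A) (hB : IsClass B) {π : P} {t u} (h1 : On A π t)
    (h2 : On B π u) : On (merge A B) π (t ∪ u) := by
  obtain ⟨α, f, hf, e⟩ := exists_pat π (t ∪ u)
  refine ⟨α, cover hB (h1.pull hA hf (s := f ⁻¹' t) fun _ h => h)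
    (h2.pull hB hf (s := f ⁻¹' u) fun _ h => h) fun x => ?_, f, hf, e⟩
  exact (e ▸ mem_range_self x : f x ∈ t ∪ u)

theorem merge_class {A B : Set P} (hA : IsClass A) (hB : IsClass B) : IsClass (merge A B) := by
  refine ⟨cover hB (on_empty hA _) (on_empty hB _) fun x => x.elim0, ?_⟩
  rintro σ π ⟨e, he⟩ ⟨s, h1, h2⟩
  exact ⟨e ⁻¹' s, h1.pull hA he fun _ h => h, h2.pull hB he fun _ h => h⟩

theorem merge_comm (A B : Set P) : merge A B = merge B A := by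
  ext π
  constructor <;> rintro ⟨s, h1, h2⟩ <;> exact ⟨sᶜ, h2, by rwa [compl_compl]⟩

theorem sub_left {A B : Set P} (hA : IsClass A) (hB : IsClass B) : A ⊆ merge A B := fun π h =>
  cover hB ((on_univ hA).mpr h) (on_empty hB π) fun x => Or.inl (mem_univ x)

theorem sub_right {A B : Set P} (hA : IsClass A) (hB : IsClass B) : B ⊆ merge A B :=
  merge_comm A B ▸ sub_left hB hA

theorem Split.symm {C A B : Set P} (h : Split C A B) : Split C B A :=
  ⟨h.2.1, h.1, h.2.2.2.1, h.2.2.1, merge_comm A B ▸ h.2.2.2.2⟩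

theorem Split.single {C A B : Set P} (h : Split C A B) (π : P) (x : Fin π.1) : On A π {x} := by
  obtain ⟨α, hα, h0⟩ : ∃ α ∈ A, α.1 ≠ 0 := by
    by_contra hn
    push Not at hn
    refine h.2.2.2.1.2 fun π hπ => ?_
    rw [h.2.2.2.2] at hπ
    obtain ⟨s, ⟨α, hα, f, -, rfl⟩, h2⟩ := hπ
    refine (on_univ h.2.1).mp (h2.pull h.2.1 (emb_id π) ?_)
    rintro x - ⟨i, -⟩
    have := i.2
    have := hn α hα
    omega
  obtain ⟨γ, f, hf, e⟩ := exists_pat π {x}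
  have k : ∀ i j, i = j := fun i j => hf.1.injective
    ((e ▸ mem_range_self i : f i ∈ ({x} : Set _)).trans (e ▸ mem_range_self j : f j ∈ ({x} : Set _)).symm)
  refine ⟨γ, h.1.2 γ α ⟨fun _ => ⟨0, Nat.pos_of_ne_zero h0⟩, fun i j hij => absurd (k i j) hij.ne,
    fun i j => ?_⟩ hα, f, hf, e⟩
  rw [k i j]; simp

theorem Split.two {C A B : Set P} (h : Split C A B) (p : Equiv.Perm (Fin 2)) : (⟨2, p⟩ : P) ∈ C := by
  rw [h.2.2.2.2]
  refine cover h.2.1 (h.single _ (0 : Fin 2)) (h.symm.single _ (1 : Fin 2)) fun x => ?_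
  fin_cases x <;> simp

def Asc (π : P) (s : Set (Fin π.1)) : Prop := ∃ i j, i ∈ s ∧ j ∈ s ∧ i < j ∧ π.2 i < π.2 j

def Desc (π : P) (s : Set (Fin π.1)) : Prop := ∃ i j, i ∈ s ∧ j ∈ s ∧ i < j ∧ π.2 j < π.2 i

def cls (Q : ℕ → Prop → Prop → Prop) : Set P := {π | Q π.1 (Asc π univ) (Desc π univ)}

theorem Emb.asc {α π : P} {f} (h : Emb α π f) : Asc α univ ↔ Asc π (range f) :=
  ⟨fun ⟨i, j, _, _, a, b⟩ => ⟨f i, f j, mem_range_self i, mem_range_self j, h.1 a, (h.2 _ _).mp b⟩, by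
    rintro ⟨_, _, ⟨i, rfl⟩, ⟨j, rfl⟩, a, b⟩
    exact ⟨i, j, trivial, trivial, h.1.lt_iff_lt.mp a, (h.2 _ _).mpr b⟩⟩

theorem Emb.desc {α π : P} {f} (h : Emb α π f) : Desc α univ ↔ Desc π (range f) :=
  ⟨fun ⟨i, j, _, _, a, b⟩ => ⟨f i, f j, mem_range_self i, mem_range_self j, h.1 a, (h.2 _ _).mp b⟩, by
    rintro ⟨_, _, ⟨i, rfl⟩, ⟨j, rfl⟩, a, b⟩
    exact ⟨i, j, trivial, trivial, h.1.lt_iff_lt.mp a, (h.2 _ _).mpr b⟩⟩

theorem Emb.card {α π : P} {f} (h : Emb α π f) : α.1 = (range f).ncard := by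
  rw [ncard_range_of_injective h.1.injective]; simp

theorem on_cls {Q} {π : P} {s} : On (cls Q) π s ↔ Q s.ncard (Asc π s) (Desc π s) := by
  constructor
  · rintro ⟨α, hα, f, hf, rfl⟩
    rw [← hf.card, ← hf.asc, ← hf.desc]; exact hα
  · intro h
    obtain ⟨α, f, hf, rfl⟩ := exists_pat π s
    rw [← hf.card, ← hf.asc, ← hf.desc] at h
    exact ⟨α, h, f, hf, rfl⟩

theorem Asc.univ {π : P} {s} (h : Asc π s) : Asc π univ :=
  let ⟨i, j, _, _, a⟩ := h; ⟨i, j, trivial, trivial, a⟩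

theorem Desc.univ {π : P} {s} (h : Desc π s) : Desc π univ :=
  let ⟨i, j, _, _, a⟩ := h; ⟨i, j, trivial, trivial, a⟩

theorem cls_class {Q : ℕ → Prop → Prop → Prop} (h0 : Q 0 False False)
    (h : ∀ m n (a d a' d' : Prop), m ≤ n → (a → a') → (d → d') → (m = n → a' → a) → (m = n → d' → d) →
      Q n a' d' → Q m a d) : IsClass (cls Q) := by
  refine ⟨h 0 0 _ _ _ _ le_rfl (fun ⟨i, _⟩ => i.elim0) (fun ⟨i, _⟩ => i.elim0) (fun _ => False.elim)
    (fun _ => False.elim) h0, ?_⟩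
  rintro σ π ⟨f, hf⟩ hπ
  have k : σ.1 = π.1 → range f = univ := fun e => range_eq_univ.mpr
    ((Fintype.bijective_iff_injective_and_card f).mpr ⟨hf.1.injective, by simp [e]⟩).2
  refine h _ _ _ _ _ _ (by simpa using Fintype.card_le_of_injective f hf.1.injective)
    (fun a => (hf.asc.mp a).univ) (fun a => (hf.desc.mp a).univ) (fun e a => ?_) (fun e a => ?_) hπ
  · rw [hf.asc, k e]; exact a
  · rw [hf.desc, k e]; exact a

def g1 : Set P := cls fun n _ _ => n ≤ 1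
def g12 : Set P := cls fun n _ d => n ≤ 2 ∧ ¬ d
def g21 : Set P := cls fun n a _ => n ≤ 2 ∧ ¬ a
def M (k : ℕ) : Set P := cls fun n a d => n ≤ k + 1 ∧ (n = k + 1 → a ∧ d)
def Inc : Set P := cls fun _ _ d => ¬ d

theorem c1 : IsClass g1 := cls_class (by simp) (by intros; omega)
theorem c12 : IsClass g12 := cls_class (by simp) (by grind)
theorem c21 : IsClass g21 := cls_class (by simp) (by grind)
theorem cM (k : ℕ) : IsClass (M k) := cls_class (by simp) (by grind)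
theorem cInc : IsClass Inc := cls_class (by simp) (by grind)

theorem card_compl {n : ℕ} (s : Set (Fin n)) : s.ncard + sᶜ.ncard = n := by
  rw [ncard_add_ncard_compl]; simp

theorem merge_M (k : ℕ) (h : ∀ p : Equiv.Perm (Fin (k + 2)), (∃ i j, i < j ∧ p i < p j) →
    (∃ i j, i < j ∧ p j < p i) → ∃ x, (∃ i j, i ≠ x ∧ j ≠ x ∧ i < j ∧ p i < p j) ∧
      ∃ i j, i ≠ x ∧ j ≠ x ∧ i < j ∧ p j < p i) : M (k + 1) = merge g1 (M k) := by
  ext π
  constructor
  · rintro ⟨h1, h2⟩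
    rcases Nat.eq_zero_or_pos π.1 with h0 | h0
    · exact sub_left c1 (cM k) (show π.1 ≤ 1 by omega)
    by_cases e : π.1 = k + 1 + 1
    · obtain ⟨n, p⟩ := π
      obtain rfl : n = k + 1 + 1 := e
      obtain ⟨⟨i, j, -, -, a⟩, ⟨i', j', -, -, d⟩⟩ := h2 rfl
      obtain ⟨x, a, d⟩ := h p ⟨i, j, a⟩ ⟨i', j', d⟩
      have := card_compl ({x} : Set (Fin (k + 1 + 1)))
      rw [ncard_singleton] at this
      exact ⟨{x}, on_cls.mpr (by simp), on_cls.mpr ⟨by change ({x}ᶜ : Set (Fin (k + 1 + 1))).ncard ≤ _; omega,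
        fun _ => ⟨a, d⟩⟩⟩
    · have := card_compl ({⟨0, h0⟩} : Set (Fin π.1))
      rw [ncard_singleton] at this
      exact ⟨{⟨0, h0⟩}, on_cls.mpr (by simp), on_cls.mpr ⟨by omega, fun _ => by omega⟩⟩
  · rintro ⟨s, h1, h2⟩
    have h1 := on_cls.mp h1
    have h2 := on_cls.mp h2
    have := card_compl s
    exact ⟨by omega, fun e => ⟨(h2.2 (by omega)).1.univ, (h2.2 (by omega)).2.univ⟩⟩

theorem M3 : M 3 = merge g1 (M 2) := merge_M 2 (by decide +kernel)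

theorem M4 : M 4 = merge g1 (M 3) := merge_M 3 (by decide +kernel)

theorem pair {π : P} {s : Set (Fin π.1)} (h : s.ncard = 2) : Asc π s ∨ Desc π s := by
  obtain ⟨x, y, hxy, rfl⟩ := ncard_eq_two.mp h
  rcases lt_or_gt_of_ne hxy with a | a <;> rcases lt_or_gt_of_ne (π.2.injective.ne hxy) with b | b
  · exact Or.inl ⟨x, y, by simp, by simp, a, b⟩
  · exact Or.inr ⟨x, y, by simp, by simp, a, b⟩
  · exact Or.inr ⟨y, x, by simp, by simp, a, b⟩
  · exact Or.inl ⟨y, x, by simp, by simp, a, b⟩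

theorem X_sub : merge g12 g21 ⊆ M 3 := by
  rintro π ⟨s, h1, h2⟩
  have h1 := on_cls.mp h1
  have h2 := on_cls.mp h2
  have := card_compl s
  exact ⟨by omega, fun e => ⟨((pair (by omega)).resolve_right h1.2).univ,
    ((pair (by omega)).resolve_left h2.2).univ⟩⟩

def Good (n : ℕ) (p : Equiv.Perm (Fin n)) : Prop :=
  ∃ a b, a ≤ b ∧ p a ≤ p b ∧ ∃ c d, c ≤ d ∧ p d ≤ p c ∧ ∃ x, ∀ y, y = x ∨ (y = a ∨ y = b) ∨ y = c ∨ y = d

instance (n : ℕ) (p : Equiv.Perm (Fin n)) : Decidable (Good n p) := by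
  unfold Good; infer_instance

theorem good5 : ∀ p : Equiv.Perm (Fin 5), (∃ i j, i < j ∧ p i < p j) → (∃ i j, i < j ∧ p j < p i) →
    Good 5 p := by decide +kernel

theorem good4 : (∀ p, Good 1 p) ∧ (∀ p, Good 2 p) ∧ (∀ p, Good 3 p) ∧ ∀ p, Good 4 p := by
  decide +kernel

theorem M4' : M 4 = merge g1 (merge g12 g21) := by
  apply subset_antisymm
  · rintro ⟨n, p⟩ ⟨h1, h2⟩
    rcases Nat.eq_zero_or_pos n with h0 | h0
    · exact sub_left c1 (merge_class c12 c21) (show n ≤ 1 by omega)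
    have : Good n p := by
      change n ≤ 5 at h1
      interval_cases n
      · exact good4.1 p
      · exact good4.2.1 p
      · exact good4.2.2.1 p
      · exact good4.2.2.2 p
      · obtain ⟨⟨i, j, -, -, a⟩, ⟨i', j', -, -, d⟩⟩ := h2 rfl
        exact good5 p ⟨i, j, a⟩ ⟨i', j', d⟩
    obtain ⟨a, b, h3, h4, c, d, h5, h6, x, h7⟩ := this
    have pl : ∀ a b : Fin n, ({a, b} : Set (Fin n)).ncard ≤ 2 := fun a b =>
      (ncard_insert_le _ _).trans (by simp)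
    refine cover (merge_class c12 c21) (t := {x}) (on_cls.mpr (by simp))
      (on_merge c12 c21 (π := ⟨n, p⟩) (t := {a, b}) (u := {c, d}) (on_cls.mpr ⟨pl _ _, ?_⟩)
        (on_cls.mpr ⟨pl _ _, ?_⟩)) h7
    · rintro ⟨i, j, rfl | rfl, rfl | rfl, k1, k2⟩
      exacts [k1.false, absurd k2 (not_lt.mpr h4), absurd k1 (not_lt.mpr h3), k1.false]
    · rintro ⟨i, j, rfl | rfl, rfl | rfl, k1, k2⟩
      exacts [k1.false, absurd k2 (not_lt.mpr h6), absurd k1 (not_lt.mpr h5), k1.false]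
  · rw [M4]
    rintro π ⟨s, h1, α, hα, h2⟩
    exact ⟨s, h1, α, X_sub hα, h2⟩

theorem id_desc (n : ℕ) : ¬ Desc ⟨n, 1⟩ univ := fun ⟨_, _, _, _, a, b⟩ => lt_asymm a b

def p21 : P := ⟨2, Equiv.swap 0 1⟩

theorem d21 : Desc p21 univ := ⟨(0 : Fin 2), (1 : Fin 2), trivial, trivial, by decide, by decide⟩

theorem a21 : ¬ Asc p21 univ := fun ⟨i, j, _, _, a⟩ =>
  (by decide : ∀ i j : Fin 2, ¬ (i < j ∧ Equiv.swap 0 1 i < Equiv.swap 0 1 j)) i j a

theorem a12 : Asc ⟨2, 1⟩ univ := ⟨(0 : Fin 2), (1 : Fin 2), trivial, trivial, by decide, by decide⟩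

def p132 : P := ⟨3, Equiv.swap 1 2⟩

theorem d132 : Desc p132 univ := ⟨(1 : Fin 3), (2 : Fin 3), trivial, trivial, by decide, by decide⟩

theorem m132 : p132 ∈ M 2 :=
  ⟨le_rfl, fun _ => ⟨⟨(0 : Fin 3), (1 : Fin 3), trivial, trivial, by decide, by decide⟩, d132⟩⟩

theorem noM {A B : Set P} (h : Split (M 2) A B) {s} (hs : On A p132 s) (i j) (hi : i ∈ s) (hj : j ∈ s)
    (hij : i < j) : False := by
  have fin : ∀ (p : Equiv.Perm (Fin 2)) (q : Equiv.Perm (Fin 3)), Emb ⟨2, p⟩ p132 ![i, j] →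
      Emb ⟨2, p⟩ ⟨3, q⟩ ![0, 1] → (⟨3, q⟩ : P) ∈ M 2 := fun p q e1 e2 => by
    have : (⟨2, p⟩ : P) ∈ A := (on_univ h.1).mp (hs.pull h.1 e1 fun x _ => by
      fin_cases x
      exacts [hi, hj])
    rw [h.2.2.2.2]
    refine cover h.2.1 ⟨_, this, _, e2, rfl⟩ (h.symm.single _ (2 : Fin 3)) fun x => ?_
    fin_cases x
    exacts [Or.inl ⟨(0 : Fin 2), rfl⟩, Or.inl ⟨(1 : Fin 2), rfl⟩, Or.inr rfl]
  have sm : StrictMono ![i, j] := Fin.strictMono_iff_lt_succ.mpr fun x => by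
    fin_cases x; exact hij
  rcases lt_or_gt_of_ne (p132.2.injective.ne hij.ne) with b | b
  · refine id_desc 3 ((fin 1 1 ⟨sm, fun x y => ?_⟩ ⟨by decide, by decide⟩).2 rfl).2
    fin_cases x <;> fin_cases y <;> simp [b, b.le]
  · have e1 : Emb ⟨2, Equiv.swap 0 1⟩ p132 ![i, j] := ⟨sm, fun x y => by
      fin_cases x <;> fin_cases y <;> simp [b, b.le]⟩
    obtain ⟨x, y, -, -, k⟩ := ((fin (Equiv.swap 0 1) (Equiv.swap 0 2) e1
      ⟨by decide, by decide⟩).2 rfl).1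
    exact (by decide : ∀ i j : Fin 3, ¬ (i < j ∧ Equiv.swap 0 2 i < Equiv.swap 0 2 j)) x y k

theorem irrM : ¬ ∃ A B, Split (M 2) A B := by
  rintro ⟨A, B, h⟩
  obtain ⟨s, h1, h2⟩ : p132 ∈ merge A B := h.2.2.2.2 ▸ m132
  by_cases a : (0 : Fin 3) ∈ s <;> by_cases b : (1 : Fin 3) ∈ s <;> by_cases c : (2 : Fin 3) ∈ s
  exacts [noM h h1 _ _ a b (by decide), noM h h1 _ _ a b (by decide), noM h h1 _ _ a c (by decide),
    noM h.symm h2 _ _ b c (by decide), noM h h1 _ _ b c (by decide), noM h.symm h2 _ _ a c (by decide),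
    noM h.symm h2 _ _ a b (by decide), noM h.symm h2 _ _ a b (by decide)]

theorem mkSplit {C A B : Set P} (hA : IsClass A) (hB : IsClass B) (e : C = merge A B) {x y : P}
    (hx : x ∈ C) (hx' : x ∉ A) (hy : y ∈ C) (hy' : y ∉ B) : Split C A B :=
  ⟨hA, hB, ⟨e ▸ sub_left hA hB, fun k => hx' (k hx)⟩, ⟨e ▸ sub_right hA hB, fun k => hy' (k hy)⟩, e⟩

theorem result : ∃ C : Set P, IsClass C ∧ C.Infinite ∧ ∃ S T, Irr C S ∧ Irr C T ∧ S ≠ T := by
  have n1 : (⟨2, 1⟩ : P) ∉ g1 := fun h => absurd (show 2 ≤ 1 from h) (by decide)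
  have i1 : Irr g1 {g1} := .base _ fun ⟨_, _, h⟩ => n1 (h.two 1)
  have i12 : Irr g12 {g12} := .base _ fun ⟨_, _, h⟩ => (h.two _ : p21 ∈ g12).2 d21
  have i21 : Irr g21 {g21} := .base _ fun ⟨_, _, h⟩ => (h.two 1).2 a12
  have iI : Irr Inc {Inc} := .base _ fun ⟨_, _, h⟩ => (h.two _ : p21 ∈ Inc) d21
  have idM : ∀ n k, n ≤ k → (⟨n, 1⟩ : P) ∈ M k := fun n k h =>
    ⟨show n ≤ k + 1 by omega, fun e => absurd (show n = k + 1 from e) (by omega)⟩
  have idM' : ∀ k, (⟨k + 1, 1⟩ : P) ∉ M k := fun k h => id_desc _ (h.2 rfl).2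
  have s0 : Split (merge (M 4) Inc) (M 4) Inc := mkSplit (cM 4) cInc rfl
    (sub_right (cM 4) cInc (id_desc 5)) (idM' 4) (y := p21)
    (sub_left (cM 4) cInc ⟨by decide, fun e => absurd e (by decide)⟩) (fun h => h d21)
  have s1 := mkSplit c1 (cM 3) M4 (idM 2 4 (by decide)) n1 (idM 4 4 le_rfl) (idM' 3)
  have s2 := mkSplit c1 (cM 2) M3 (idM 2 3 (by decide)) n1 (idM 3 3 le_rfl) (idM' 2)
  have s3 := mkSplit c1 (merge_class c12 c21) M4' (idM 2 4 (by decide)) n1 (idM 4 4 le_rfl)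
    (fun h => idM' 3 (X_sub h))
  have s4 : Split (merge g12 g21) g12 g21 := mkSplit c12 c21 rfl (x := p21)
    (sub_right c12 c21 ⟨le_rfl, a21⟩) (fun h => h.2 d21) (y := ⟨2, 1⟩)
    (sub_left c12 c21 ⟨le_rfl, id_desc 2⟩) (fun h => h.2 a12)
  refine ⟨merge (M 4) Inc, merge_class (cM 4) cInc,
    infinite_of_injective_forall_mem (f := fun n : ℕ => (⟨n, 1⟩ : P)) (fun _ _ e => congrArg Sigma.fst e)
      fun n => sub_right (cM 4) cInc (id_desc n), _, _,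
    .step _ _ _ _ _ s0 (.step _ _ _ _ _ s1 i1 (.step _ _ _ _ _ s2 i1 (.base _ irrM))) iI,
    .step _ _ _ _ _ s0 (.step _ _ _ _ _ s3 i1 (.step _ _ _ _ _ s4 i12 i21)) iI, fun e => ?_⟩
  have : M 2 ∈ ({g1} ∪ ({g12} ∪ {g21}) ∪ {Inc} : Set (Set P)) := e ▸ by simp
  rcases this with (h | h | h) | h
  · exact absurd (show 3 ≤ 1 from (h ▸ m132 : p132 ∈ g1)) (by decide)
  · exact absurd (show 3 ≤ 2 from (h ▸ m132 : p132 ∈ g12).1) (by decide)
  · exact absurd (show 3 ≤ 2 from (h ▸ m132 : p132 ∈ g21).1) (by decide)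
  · exact (h ▸ m132 : p132 ∈ Inc) d132

end Pool.Agent.Results.MP_673260_co.Two
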